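import Mathlib

namespace Pool.Agent.Results.MP_19fe04_lc.Affine4

def Steiner {Ω : Type} (k : ℕ) (B : Set (Set Ω)) : Prop :=
  (∀ b ∈ B, ((k + 1 : ℕ) : ℕ∞) ≤ b.encard) ∧ B.Nontrivial ∧
    ∀ s : Finset Ω, s.card = k → ∃! b, b ∈ B ∧ (s : Set Ω) ⊆ b

def Preserves {Ω : Type} (g : Equiv.Perm Ω) (B : Set (Set Ω)) : Prop :=
  (fun b => g '' b) '' B = B

abbrev K := GaloisField 2 2
abbrev V := ℕ →₀ K

lemma cardK : Nat.card K = 4 := GaloisField.card 2 2 (by norm_num)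

lemma two (x : V) : x + x = 0 := by
  rw [← two_smul K x, show (2 : K) = 0 from CharTwo.two_eq_zero, zero_smul]

lemma fourK (s t r x : K) (h1 : s ≠ t) (h2 : s ≠ r) (h3 : t ≠ r) (h4 : x ≠ s) (h5 : x ≠ t)
    (h6 : x ≠ r) : x = s + t + r := by
  classical
  haveI := Fintype.ofFinite K
  have e : (2 : K) = 0 := CharTwo.two_eq_zero
  have a1 : s ≠ s + t + r := fun h => h3 (by linear_combination -h - r * e)
  have a2 : t ≠ s + t + r := fun h => h2 (by linear_combination -h - r * e)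
  have a3 : r ≠ s + t + r := fun h => h1 (by linear_combination -h - t * e)
  have hc : ({s, t, r, s + t + r} : Finset K).card = Fintype.card K := by
    rw [← Nat.card_eq_fintype_card, cardK, Finset.card_insert_of_notMem (by simp [h1, h2, a1]),
      Finset.card_insert_of_notMem (by simp [h3, a2]), Finset.card_pair a3]
  have : x ∈ ({s, t, r, s + t + r} : Finset K) := by
    rw [Finset.eq_univ_of_card _ hc]; simp
  simpa [h4, h5, h6] using this

lemma omega_ex : ∃ w : K, w ≠ 0 ∧ w ≠ 1 := by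
  haveI := Fintype.ofFinite K
  have : 2 < Fintype.card K := by rw [← Nat.card_eq_fintype_card, cardK]; norm_num
  obtain ⟨a, b, c, h1, h2, h3⟩ := Fintype.two_lt_card_iff.1 this
  by_contra h
  push Not at h
  by_cases ha : a = 0 <;> by_cases hb : b = 0 <;> by_cases hc : c = 0 <;> simp_all

def line (a v : V) : Set V := {x | ∃ t : K, x = a + t • v}
def Ls : Set (Set V) := {L | ∃ a v, v ≠ 0 ∧ L = line a v}

lemma line_eq {L : Set V} (hL : L ∈ Ls) {x y : V} (hx : x ∈ L) (hy : y ∈ L) (h : x ≠ y) :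
    L = line x (y - x) := by
  obtain ⟨a, v, -, rfl⟩ := hL
  obtain ⟨s, rfl⟩ := hx
  obtain ⟨t, rfl⟩ := hy
  have hst : t - s ≠ 0 := fun e => h (by rw [sub_eq_zero.1 e])
  ext z
  constructor
  · rintro ⟨r, rfl⟩
    refine ⟨(r - s) / (t - s), ?_⟩
    have : a + t • v - (a + s • v) = (t - s) • v := by module
    rw [this, smul_smul, div_mul_cancel₀ _ hst]; module
  · rintro ⟨r, rfl⟩
    exact ⟨s + r * (t - s), by module⟩

lemma line_mem {x y : V} (h : x ≠ y) : line x (y - x) ∈ Ls := ⟨_, _, sub_ne_zero.2 h.symm, rfl⟩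
lemma left_mem (x v : V) : x ∈ line x v := ⟨0, by simp⟩
lemma right_mem (x y : V) : y ∈ line x (y - x) := ⟨1, by simp⟩

lemma four {L : Set V} (hL : L ∈ Ls) {x y z w : V} (hx : x ∈ L) (hy : y ∈ L) (hz : z ∈ L)
    (hw : w ∈ L) (h1 : x ≠ y) (h2 : x ≠ z) (h3 : y ≠ z) (h4 : w ≠ x) (h5 : w ≠ y) (h6 : w ≠ z) :
    w = x + y + z := by
  obtain ⟨a, v, -, rfl⟩ := hL
  obtain ⟨s, rfl⟩ := hx
  obtain ⟨t, rfl⟩ := hy
  obtain ⟨r, rfl⟩ := hz
  obtain ⟨q, rfl⟩ := hw
  have := fourK s t r q (by rintro rfl; exact h1 rfl) (by rintro rfl; exact h2 rfl)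
    (by rintro rfl; exact h3 rfl) (by rintro rfl; exact h4 rfl) (by rintro rfl; exact h5 rfl)
    (by rintro rfl; exact h6 rfl)
  rw [this]
  linear_combination (norm := module) -two a

def R (a b c d : V) : Prop :=
  ∃ L1 ∈ Ls, ∃ L2 ∈ Ls, ∃ L3 ∈ Ls, ∃ L4 ∈ Ls, ∃ L5 ∈ Ls, ∃ x y, a ∈ L1 ∧ b ∈ L1 ∧ a ∈ L2 ∧ c ∈ L2 ∧
    x ∈ L1 ∧ y ∈ L2 ∧ x ≠ y ∧ x ∈ L3 ∧ y ∈ L3 ∧ d ∈ L3 ∧ c ∈ L4 ∧ d ∈ L4 ∧ b ∈ L5 ∧ d ∈ L5 ∧
    Disjoint L4 L1 ∧ Disjoint L5 L2

lemma indep {a b c : V} (hab : a ≠ b) (h : ¬ ∃ L ∈ Ls, a ∈ L ∧ b ∈ L ∧ c ∈ L) (s t : K)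
    (e : s • (b - a) + t • (c - a) = 0) : s = 0 ∧ t = 0 := by
  have ht : t = 0 := by
    by_contra ht
    refine h ⟨_, line_mem hab, left_mem _ _, right_mem _ _, -s / t, ?_⟩
    apply smul_right_injective V ht
    simp only [smul_add, smul_smul, mul_div_cancel₀ _ ht]
    linear_combination (norm := module) e
  refine ⟨?_, ht⟩
  rw [ht, zero_smul, add_zero] at e
  exact (smul_eq_zero.1 e).resolve_right (sub_ne_zero.2 hab.symm)

lemma R_ex {a b c : V} (hab : a ≠ b) (hac : a ≠ c) (h : ¬ ∃ L ∈ Ls, a ∈ L ∧ b ∈ L ∧ c ∈ L) :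
    R a b c (a + b + c) := by
  obtain ⟨w, w0, w1⟩ := omega_ex
  have w2 : 1 - w ≠ 0 := sub_ne_zero.2 w1.symm
  have hxy : a + w⁻¹ • (b - a) ≠ a + (1 - w)⁻¹ • (c - a) := fun e =>
    inv_ne_zero w0 (indep hab h w⁻¹ (-(1 - w)⁻¹) (by linear_combination (norm := module) e)).1
  refine ⟨_, line_mem hab, _, line_mem hac, _, line_mem hxy, line c (b - a),
    ⟨_, _, sub_ne_zero.2 hab.symm, rfl⟩, line b (c - a), ⟨_, _, sub_ne_zero.2 hac.symm, rfl⟩,
    _, _, left_mem _ _, right_mem _ _, left_mem _ _, right_mem _ _, ⟨_, rfl⟩, ⟨_, rfl⟩, hxy,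
    left_mem _ _, right_mem _ _, ⟨1 - w, ?_⟩, left_mem _ _, ⟨1, ?_⟩, left_mem _ _, ⟨1, ?_⟩,
    ?_, ?_⟩
  · have e1 : (1 - w) • (1 - w)⁻¹ • (c - a) = c - a := by
      rw [smul_smul, mul_inv_cancel₀ w2, one_smul]
    have e2 : w • w⁻¹ • (b - a) = b - a := by rw [smul_smul, mul_inv_cancel₀ w0, one_smul]
    linear_combination (norm := module) two a - e1 - e2
  · linear_combination (norm := module) two a
  · linear_combination (norm := module) two a
  · rw [Set.disjoint_left]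
    rintro z ⟨s, rfl⟩ ⟨t, e⟩
    exact one_ne_zero (indep hab h (s - t) 1 (by linear_combination (norm := module) e)).2
  · rw [Set.disjoint_left]
    rintro z ⟨s, rfl⟩ ⟨t, e⟩
    exact one_ne_zero (indep hab h 1 (s - t) (by linear_combination (norm := module) e)).1

lemma R_uniq {a b c d : V} (hab : a ≠ b) (hac : a ≠ c) (h : R a b c d) : d = a + b + c := by
  obtain ⟨L1, h1, L2, h2, L3, h3, L4, h4, L5, h5, x, y, a1, b1, a2, c2, x1, y2, hxy, x3, y3, d3,
    c4, d4, b5, d5, e1, e2⟩ := h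
  have hcd : c ≠ d := fun e => Set.disjoint_left.1 e2 d5 (e ▸ c2)
  have hbd : b ≠ d := fun e => Set.disjoint_left.1 e1 d4 (e ▸ b1)
  rw [line_eq h1 a1 b1 hab] at x1 e1
  rw [line_eq h2 a2 c2 hac] at y2 e2
  rw [line_eq h3 x3 y3 hxy] at d3
  rw [line_eq h4 c4 d4 hcd] at e1
  rw [line_eq h5 b5 d5 hbd] at e2
  obtain ⟨s, rfl⟩ := x1
  obtain ⟨t, rfl⟩ := y2
  obtain ⟨r, hd⟩ := d3
  obtain ⟨α, β, hd⟩ : ∃ α β : K, d = a + α • (b - a) + β • (c - a) :=
    ⟨s - r * s, r * t, by rw [hd]; module⟩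
  have hβ : β = 1 := by
    by_contra hβ
    have hβ' : 1 - β ≠ 0 := sub_ne_zero.2 (Ne.symm hβ)
    refine Set.disjoint_left.1 e1 ⟨(1 - β)⁻¹, rfl⟩ ⟨(1 - β)⁻¹ * α, ?_⟩
    have e : (1 - β)⁻¹ • (1 - β) • (c - a) = c - a := by
      rw [smul_smul, inv_mul_cancel₀ hβ', one_smul]
    rw [hd]
    linear_combination (norm := module) -e
  have hα : α = 1 := by
    by_contra hα
    have hα' : 1 - α ≠ 0 := sub_ne_zero.2 (Ne.symm hα)
    refine Set.disjoint_left.1 e2 ⟨(1 - α)⁻¹, rfl⟩ ⟨(1 - α)⁻¹ * β, ?_⟩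
    have e : (1 - α)⁻¹ • (1 - α) • (b - a) = b - a := by
      rw [smul_smul, inv_mul_cancel₀ hα', one_smul]
    rw [hd]
    linear_combination (norm := module) -e
  rw [hd, hα, hβ]
  linear_combination (norm := module) -two a

lemma ne4 {a b c : V} (h : b ≠ c) : a + b + c ≠ a := fun e =>
  h (by linear_combination (norm := module) e - two c)

lemma affine (g : Equiv.Perm V) (hg : ∀ L ∈ Ls, g '' L ∈ Ls) {a b c : V} (hab : a ≠ b)
    (hac : a ≠ c) (hbc : b ≠ c) : g (a + b + c) = g a + g b + g c := by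
  have m : ∀ {L : Set V} {x : V}, x ∈ L → g x ∈ g '' L := fun h => Set.mem_image_of_mem g h
  by_cases h : ∃ L ∈ Ls, a ∈ L ∧ b ∈ L ∧ c ∈ L
  · obtain ⟨L, hL, ha, hb, hc⟩ := h
    have hd : a + b + c ∈ L := by
      obtain ⟨p, v, -, rfl⟩ := hL
      obtain ⟨s, rfl⟩ := ha
      obtain ⟨t, rfl⟩ := hb
      obtain ⟨r, rfl⟩ := hc
      exact ⟨s + t + r, by linear_combination (norm := module) two p⟩
    refine four (hg L hL) (m ha) (m hb) (m hc) (m hd) (g.injective.ne hab) (g.injective.ne hac)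
      (g.injective.ne hbc) (g.injective.ne (ne4 hbc)) (g.injective.ne ?_) (g.injective.ne ?_)
    · rw [add_comm a b]; exact ne4 hac
    · rw [add_comm, ← add_assoc]; exact ne4 hab
  · apply R_uniq (g.injective.ne hab) (g.injective.ne hac)
    obtain ⟨L1, h1, L2, h2, L3, h3, L4, h4, L5, h5, x, y, a1, b1, a2, c2, x1, y2, hxy, x3, y3, d3,
      c4, d4, b5, d5, e1, e2⟩ := R_ex hab hac h
    exact ⟨_, hg _ h1, _, hg _ h2, _, hg _ h3, _, hg _ h4, _, hg _ h5, g x, g y, m a1, m b1,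
      m a2, m c2, m x1, m y2, g.injective.ne hxy, m x3, m y3, m d3, m c4, m d4, m b5, m d5,
      (Set.disjoint_image_iff g.injective).2 e1, (Set.disjoint_image_iff g.injective).2 e2⟩

def Qs : Set (Set V) := {S | ∃ a b c, a ≠ b ∧ a ≠ c ∧ b ≠ c ∧ S = {a, b, c, a + b + c}}

lemma pres_of {B : Set (Set V)} (g : Equiv.Perm V) (h1 : ∀ L ∈ B, g '' L ∈ B)
    (h2 : ∀ L ∈ B, g.symm '' L ∈ B) : Preserves g B := by
  apply Set.Subset.antisymm
  · rintro _ ⟨L, hL, rfl⟩; exact h1 L hL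
  · intro L hL; exact ⟨_, h2 L hL, by simp [Set.image_image]⟩

lemma Qs_map (g : Equiv.Perm V) (hg : ∀ L ∈ Ls, g '' L ∈ Ls) : ∀ S ∈ Qs, g '' S ∈ Qs := by
  rintro _ ⟨a, b, c, h1, h2, h3, rfl⟩
  refine ⟨g a, g b, g c, g.injective.ne h1, g.injective.ne h2, g.injective.ne h3, ?_⟩
  simp only [Set.image_insert_eq, Set.image_singleton, affine g hg h1 h2 h3]

lemma Qs_eq {S : Set V} (hS : S ∈ Qs) {x y z : V} (hx : x ∈ S) (hy : y ∈ S) (hz : z ∈ S)
    (h1 : x ≠ y) (h2 : x ≠ z) (h3 : y ≠ z) : S = {x, y, z, x + y + z} := by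
  obtain ⟨a, b, c, -, -, -, rfl⟩ := hS
  have key : ∀ p q r s : V, p + q + r + s = 0 → p + q + r = s := fun p q r s h => by
    linear_combination (norm := module) h - two s
  have z0 : ∀ p q r s : V, p + q + r + s = a + b + c + (a + b + c) → p + q + r = s :=
    fun p q r s h => key p q r s (h.trans (two _))
  obtain ⟨d, hd⟩ : ∃ d, d = a + b + c := ⟨_, rfl⟩
  rw [← hd] at hx hy hz ⊢
  have z1 : ∀ p q r s : V, p + q + r + s = a + b + c + d → p + q + r = s := hd ▸ z0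
  clear hd z0 key
  simp only [Set.mem_insert_iff, Set.mem_singleton_iff] at hx hy hz
  rcases hx with rfl | rfl | rfl | rfl <;> rcases hy with rfl | rfl | rfl | rfl <;>
    (try exact absurd rfl h1) <;> rcases hz with rfl | rfl | rfl | rfl <;>
    (try exact absurd rfl h2) <;> (try exact absurd rfl h3) <;>
    first
      | (rw [z1 _ _ _ a (by abel)]; ext; simp only [Set.mem_insert_iff, Set.mem_singleton_iff]; tauto)
      | (rw [z1 _ _ _ b (by abel)]; ext; simp only [Set.mem_insert_iff, Set.mem_singleton_iff]; tauto)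
      | (rw [z1 _ _ _ c (by abel)]; ext; simp only [Set.mem_insert_iff, Set.mem_singleton_iff]; tauto)
      | (rw [z1 _ _ _ d (by abel)]; ext; simp only [Set.mem_insert_iff, Set.mem_singleton_iff]; tauto)
      | rw [z1 _ _ _ d (by abel)]

lemma lin_map (T : V ≃ₗ[K] V) (p : V) (g : Equiv.Perm V) (hg : ∀ x, g x = T x + p) :
    ∀ L ∈ Ls, g '' L ∈ Ls := by
  rintro _ ⟨a, v, hv, rfl⟩
  refine ⟨g a, T v, by simpa using hv, ?_⟩
  ext z
  constructor
  · rintro ⟨_, ⟨t, rfl⟩, rfl⟩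
    exact ⟨t, by simp only [hg, map_add, map_smul]; abel⟩
  · rintro ⟨t, rfl⟩
    exact ⟨_, ⟨t, rfl⟩, by simp only [hg, map_add, map_smul]; abel⟩

lemma trans_lin (u u' : V) (hu : u ≠ 0) (hu' : u' ≠ 0) : ∃ T : V ≃ₗ[K] V, T u = u' := by
  obtain ⟨f, h1, h2⟩ : ∃ f : Module.Dual K V, f u ≠ 0 ∧ f u' ≠ 0 := by
    obtain ⟨f, hf⟩ := Module.Projective.exists_dual_ne_zero K hu
    obtain ⟨g, hg⟩ := Module.Projective.exists_dual_ne_zero K hu'
    by_cases a : f u' = 0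
    · by_cases b : g u = 0
      · exact ⟨f + g, by simpa [b] using hf, by simpa [a] using hg⟩
      · exact ⟨g, b, hg⟩
    · exact ⟨f, hf, a⟩
  refine ⟨LinearEquiv.ofLinear (LinearMap.id + f.smulRight ((f u)⁻¹ • (u' - u)))
    (LinearMap.id - f.smulRight ((f u')⁻¹ • (u' - u))) ?_ ?_, ?_⟩
  · refine LinearMap.ext fun x => ?_
    simp only [LinearMap.comp_apply, LinearMap.add_apply, LinearMap.sub_apply, LinearMap.id_apply,
      LinearMap.smulRight_apply, map_sub, map_smul, smul_eq_mul]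
    match_scalars <;> field_simp <;> ring
  · refine LinearMap.ext fun x => ?_
    simp only [LinearMap.comp_apply, LinearMap.add_apply, LinearMap.sub_apply, LinearMap.id_apply,
      LinearMap.smulRight_apply, map_sub, map_add, map_smul, smul_eq_mul]
    match_scalars <;> field_simp <;> ring
  · simp [smul_smul, h1]

theorem result : ∃ (Ω : Type) (_ : Countable Ω) (_ : Infinite Ω) (B C : Set (Set Ω)),
    Steiner 2 B ∧ Steiner 3 C ∧
    (∀ x y : Fin 2 ↪ Ω, ∃ g : Equiv.Perm Ω, Preserves g B ∧ ∀ i, g (x i) = y i) ∧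
    ∀ g : Equiv.Perm Ω, Preserves g B → Preserves g C := by
  classical
  let e : ℕ → V := fun i => Finsupp.single i 1
  have he : ∀ i j, i ≠ j → e i ≠ e j := fun i j h =>
    (Finsupp.single_left_injective one_ne_zero).ne h
  have he0 : ∀ i, e i ≠ 0 := fun i => by simp [e]
  refine ⟨V, inferInstance, inferInstance, Ls, Qs, ⟨?_, ?_, ?_⟩, ⟨?_, ?_, ?_⟩, ?_, ?_⟩
  · rintro _ ⟨a, v, hv, rfl⟩
    obtain ⟨w, w0, w1⟩ := omega_ex
    have inj : ∀ s t : K, s ≠ t → a + s • v ≠ a + t • v := fun s t h e =>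
      h (smul_left_injective K hv (add_left_cancel e))
    have : ({a + (0 : K) • v, a + (1 : K) • v, a + w • v} : Set V).encard = 3 :=
      Set.encard_eq_three.2 ⟨_, _, _, inj _ _ zero_ne_one, inj _ _ w0.symm, inj _ _ w1.symm, rfl⟩
    refine this.symm.le.trans (Set.encard_le_encard ?_)
    rintro _ (rfl | rfl | rfl) <;> exact ⟨_, rfl⟩
  · refine ⟨line 0 (e 0), ⟨_, _, he0 0, rfl⟩, line 0 (e 1), ⟨_, _, he0 1, rfl⟩, fun h => ?_⟩
    have : e 0 ∈ line 0 (e 1) := h ▸ ⟨1, by simp⟩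
    obtain ⟨t, ht⟩ := this
    simpa [e] using congrArg (fun v : V => v 0) ht
  · intro s hs
    obtain ⟨x, y, h, rfl⟩ := Finset.card_eq_two.1 hs
    refine ⟨line x (y - x), ⟨line_mem h, ?_⟩, fun L hL => line_eq hL.1 (hL.2 (by simp))
      (hL.2 (by simp)) h⟩
    simp [Set.insert_subset_iff, left_mem, right_mem]
  · rintro _ ⟨a, b, c, h1, h2, h3, rfl⟩
    have a1 : a ≠ a + b + c := (ne4 h3).symm
    have a2 : b ≠ a + b + c := by rw [add_comm a b]; exact (ne4 h2).symm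
    have a3 : c ≠ a + b + c := by rw [add_comm, ← add_assoc]; exact (ne4 h1).symm
    rw [Set.encard_insert_of_notMem (by simp [h1, h2, a1]),
      Set.encard_insert_of_notMem (by simp [h3, a2]), Set.encard_pair a3]
    norm_num
  · refine ⟨_, ⟨0, e 0, e 1, (he0 0).symm, (he0 1).symm, he 0 1 (by norm_num), rfl⟩,
      _, ⟨0, e 0, e 2, (he0 0).symm, (he0 2).symm, he 0 2 (by norm_num), rfl⟩, fun h => ?_⟩
    have : e 2 ∈ ({0, e 0, e 1, 0 + e 0 + e 1} : Set V) := by rw [h]; simp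
    rcases this with h | h | h | h <;> simpa [e] using congrArg (fun v : V => v 2) h
  · intro s hs
    obtain ⟨x, y, z, h1, h2, h3, rfl⟩ := Finset.card_eq_three.1 hs
    refine ⟨_, ⟨⟨x, y, z, h1, h2, h3, rfl⟩, ?_⟩, fun S hS => Qs_eq hS.1 (hS.2 (by simp))
      (hS.2 (by simp)) (hS.2 (by simp)) h1 h2 h3⟩
    simp [Set.insert_subset_iff]
  · intro x y
    obtain ⟨T, hT⟩ := trans_lin (x 1 - x 0) (y 1 - y 0)
      (sub_ne_zero.2 (x.injective.ne (by decide))) (sub_ne_zero.2 (y.injective.ne (by decide)))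
    refine ⟨T.toEquiv.trans (Equiv.addRight (y 0 - T (x 0))), pres_of _
      (lin_map T _ _ fun _ => rfl) (lin_map T.symm (-T.symm (y 0 - T (x 0))) _ fun z => ?_), ?_⟩
    · rw [Equiv.symm_apply_eq]
      simp
      abel
    · intro i
      rw [map_sub] at hT
      fin_cases i
      · simp
      · simp; linear_combination (norm := module) hT
  · intro g hg
    have h1 : ∀ L ∈ Ls, g '' L ∈ Ls := fun L hL => hg ▸ Set.mem_image_of_mem _ hL
    have h2 : ∀ L ∈ Ls, g.symm '' L ∈ Ls := fun L hL => by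
      rw [← hg] at hL
      obtain ⟨L', hL', rfl⟩ := hL
      simpa [Set.image_image] using hL'
    exact pres_of g (Qs_map g h1) (Qs_map g.symm h2)

end Pool.Agent.Results.MP_19fe04_lc.Affine4
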